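import Pool.Agent.H10.Unital

set_option autoImplicit false

namespace Pool.Agent.Results.MP_ea4033_co.Dismantle

open Pool.Agent.H10.Unital Set

/-- Column vectors over the field with two elements. -/
abbrev V (r : ℕ) : Type := Fin r → ZMod 2

/-- The simple binary matroid (a loop allowed) whose columns are the vectors of `M`. -/
noncomputable def mat {r : ℕ} (M : Finset (V r)) : Matroid M :=
  vecM (ZMod 2) (fun e : M => (e : V r))

/-- Matroid homomorphisms: the images of the elements of each circuit sum to zero. -/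
def IsHom {s r : ℕ} (M : Finset (V s)) (N : Finset (V r)) (τ : M → N) : Prop :=
  ∀ Z : Finset M, (mat M).IsCircuit (Z : Set M) → ∑ e ∈ Z, (τ e : V r) = 0

/-- `τ'` arises from `τ` by adding one vector on a cocircuit. -/
def Step {s r : ℕ} (M : Finset (V s)) (N : Finset (V r)) (τ τ' : M → N) : Prop :=
  ∃ (C : Set M) (c : V r), (mat M).IsCocircuit C ∧
    ∀ e, (e ∈ C → (τ' e : V r) = τ e + c) ∧ (e ∉ C → τ' e = τ e)

/-- The colouring graph. -/
def Col {s r : ℕ} (M : Finset (V s)) (N : Finset (V r)) :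
    SimpleGraph {τ : M → N // IsHom M N τ} :=
  SimpleGraph.fromRel fun τ τ' => Step M N τ.1 τ'.1

/-- Every instance of the recolouring problem for `N` is a yes instance. -/
def Triv {r : ℕ} (N : Finset (V r)) : Prop :=
  ∀ (s : ℕ) (M : Finset (V s)), (Col M N).Preconnected

/-- Dismantling retractions: idempotent homomorphisms adjacent to the identity. -/
def IsDism {r : ℕ} (N : Finset (V r)) (ρ : {τ : N → N // IsHom N N τ}) : Prop :=
  ρ.1 ∘ ρ.1 = ρ.1 ∧ ∃ ι : {τ : N → N // IsHom N N τ}, ι.1 = id ∧ (Col N N).Adj ρ ι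

/-- `Dis N N'`: successive dismantling retractions take `N` onto `N'`. -/
inductive Dis {r : ℕ} : Finset (V r) → Finset (V r) → Prop
  | refl (N : Finset (V r)) : Dis N N
  | step (N N' : Finset (V r)) (ρ : {τ : N → N // IsHom N N τ}) : IsDism N ρ →
      Dis (Finset.univ.image fun e => (ρ.1 e : V r)) N' → Dis N N'

theorem z2 (x : ZMod 2) : x = 0 ∨ x = 1 := by revert x; decide

theorem vv {r : ℕ} (x : V r) : x + x = 0 := by
  funext i
  exact CharTwo.add_self_eq_zero _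

theorem circ_sum {s : ℕ} (M : Finset (V s)) (Z : Finset M) (h : (mat M).IsCircuit (Z : Set M)) :
    ∑ e ∈ Z, (e : V s) = 0 := by
  classical
  have h1 := h.not_indep
  rw [mat, vecM_indep, linearIndepOn_iff'] at h1
  push Not at h1
  obtain ⟨t, g, ht, hs, i, hi, hg⟩ := h1
  have hsub : ((t.filter fun e => g e ≠ 0 : Finset M) : Set M) ⊆ Z := fun e he =>
    ht (Finset.mem_filter.1 he).1
  have hsum : ∑ e ∈ t.filter (fun e => g e ≠ 0), (e : V s) = 0 := by
    rw [← hs, Finset.sum_filter]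
    refine Finset.sum_congr rfl fun e _ => ?_
    rcases z2 (g e) with k | k <;> simp [k]
  have hZ : ((t.filter fun e => g e ≠ 0 : Finset M) : Set M) = Z := by
    by_contra hne
    have := h.ssubset_indep (hsub.ssubset_of_ne hne)
    rw [mat, vecM_indep, linearIndepOn_iff'] at this
    have := this _ (fun _ => 1) subset_rfl (by simpa using hsum) i (by simp [hi, hg])
    exact one_ne_zero this
  rw [← Finset.coe_injective hZ, hsum]

theorem lin_hom {s r : ℕ} (M : Finset (V s)) (N : Finset (V r)) (L : V s →ₗ[ZMod 2] V r)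
    (τ : M → N) (h : ∀ e, (τ e : V r) = L e) : IsHom M N τ := by
  intro Z hZ
  simp only [h]
  rw [← map_sum, circ_sum M Z hZ, map_zero]

/-- support of a functional -/
def supp {s : ℕ} (M : Finset (V s)) (φ : V s →ₗ[ZMod 2] ZMod 2) : Set M := {e | φ e = 1}

theorem meets {s : ℕ} (M : Finset (V s)) (X : Set M) :
    (∀ B, (mat M).IsBase B → (X ∩ B).Nonempty) ↔
      ∃ φ, (supp M φ).Nonempty ∧ supp M φ ⊆ X := by
  constructor
  · intro h
    obtain ⟨I, hI⟩ := (mat M).exists_isBasis Xᶜ (subset_univ _)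
    obtain ⟨B, hB, hIB⟩ := hI.indep.exists_isBase_superset
    obtain ⟨e, heX, heB⟩ := h B hB
    have heI : e ∉ I := fun k => hI.subset k heX
    have h1 : (mat M).Indep (insert e I) := hB.indep.subset (insert_subset heB hIB)
    rw [mat, vecM_indep, linearIndepOn_insert heI] at h1
    obtain ⟨φ, h2, h3⟩ := Submodule.exists_dual_map_eq_bot_of_notMem h1.2 inferInstance
    have h4 : ∀ v ∈ Submodule.span (ZMod 2) ((fun e : M => (e : V s)) '' I), φ v = 0 := by
      intro v hv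
      have : φ v ∈ (⊥ : Submodule (ZMod 2) (ZMod 2)) := h3 ▸ Submodule.mem_map_of_mem hv
      simpa using this
    refine ⟨φ, ⟨e, (z2 _).resolve_left h2⟩, fun x hx => ?_⟩
    by_contra hxX
    have : φ x = 0 := by
      apply h4
      by_cases hxI : x ∈ I
      · exact Submodule.subset_span ⟨x, hxI, rfl⟩
      · have h5 := (hI.insert_dep ⟨hxX, hxI⟩).not_indep
        rw [mat, vecM_indep, linearIndepOn_insert hxI] at h5
        by_contra k
        exact h5 ⟨h1.1, k⟩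
    rw [show φ x = 1 from hx] at this
    exact one_ne_zero this
  · rintro ⟨φ, ⟨e, he⟩, h⟩ B hB
    by_contra hn
    have h0 : ∀ x ∈ B, φ x = 0 := fun x hx =>
      (z2 _).resolve_right fun k => hn ⟨x, h k, hx⟩
    have heB : e ∉ B := fun k => by
      have := h0 e k
      rw [show φ e = 1 from he] at this
      exact one_ne_zero this
    have h5 := (hB.insert_dep ⟨mem_univ e, heB⟩).not_indep
    have h6 := hB.indep
    rw [mat, vecM_indep] at h5 h6
    rw [linearIndepOn_insert heB] at h5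
    have h7 : (e : V s) ∈ Submodule.span (ZMod 2) ((fun e : M => (e : V s)) '' B) := by
      by_contra k
      exact h5 ⟨h6, k⟩
    have h8 : Submodule.span (ZMod 2) ((fun e : M => (e : V s)) '' B) ≤ LinearMap.ker φ := by
      rw [Submodule.span_le]
      rintro _ ⟨x, hx, rfl⟩
      exact h0 x hx
    have := h8 h7
    rw [LinearMap.mem_ker, show φ e = 1 from he] at this
    exact one_ne_zero this

theorem cocirc_iff {s : ℕ} (M : Finset (V s)) (C : Set M) :
    (mat M).IsCocircuit C ↔ ∃ φ, C = supp M φ ∧ C.Nonempty ∧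
      ∀ ψ, (supp M ψ).Nonempty → supp M ψ ⊆ C → C ⊆ supp M ψ := by
  rw [Matroid.isCocircuit_iff_minimal]
  simp only [meets]
  constructor
  · rintro ⟨⟨φ, h1, h2⟩, h3⟩
    have h4 : ∀ ψ, (supp M ψ).Nonempty → supp M ψ ⊆ C → C ⊆ supp M ψ := fun ψ k1 k2 =>
      h3 ⟨ψ, k1, subset_rfl⟩ k2
    exact ⟨φ, (h4 φ h1 h2).antisymm h2, h1.mono h2, h4⟩
  · rintro ⟨φ, h1, h2, h3⟩
    refine ⟨⟨φ, h1 ▸ h2, h1 ▸ subset_rfl⟩, ?_⟩
    rintro X ⟨ψ, k1, k2⟩ k3
    exact (h3 ψ k1 (k2.trans k3)).trans k2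

theorem step_iff {s r : ℕ} (M : Finset (V s)) (N : Finset (V r)) (τ τ' : M → N) :
    Step M N τ τ' ↔ ∃ φ c, (mat M).IsCocircuit (supp M φ) ∧
      ∀ e, (τ' e : V r) = τ e + φ e • c := by
  constructor
  · rintro ⟨C, c, h1, h2⟩
    obtain ⟨φ, rfl, -⟩ := (cocirc_iff M C).1 h1
    refine ⟨φ, c, h1, fun e => ?_⟩
    rcases z2 (φ e) with k | k
    · rw [(h2 e).2 (fun k' => by rw [show φ e = 1 from k'] at k; exact one_ne_zero k), k]; simp
    · rw [(h2 e).1 k, k]; simp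
  · rintro ⟨φ, c, h1, h2⟩
    refine ⟨_, c, h1, fun e => ⟨fun k => ?_, fun k => Subtype.ext ?_⟩⟩
    · rw [h2, show φ e = 1 from k]; simp
    · rw [h2, (z2 _).resolve_right k]; simp

theorem adj_iff {s r : ℕ} (M : Finset (V s)) (N : Finset (V r))
    (τ τ' : {τ : M → N // IsHom M N τ}) :
    (Col M N).Adj τ τ' ↔ τ ≠ τ' ∧ ∃ φ c, (mat M).IsCocircuit (supp M φ) ∧
      ∀ e, (τ'.1 e : V r) = τ.1 e + φ e • c := by
  rw [Col, SimpleGraph.fromRel_adj, step_iff, step_iff]
  refine and_congr_right fun _ => ⟨?_, Or.inl⟩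
  rintro (h | ⟨φ, c, h1, h2⟩)
  · exact h
  · refine ⟨φ, c, h1, fun e => ?_⟩
    rw [h2, add_assoc, vv, add_zero]

/-- the map `x ↦ x + φ x • c` -/
def tr {r : ℕ} (φ : V r →ₗ[ZMod 2] ZMod 2) (c : V r) : V r →ₗ[ZMod 2] V r :=
  LinearMap.id + φ.smulRight c

theorem tr_apply {r : ℕ} (φ : V r →ₗ[ZMod 2] ZMod 2) (c x : V r) : tr φ c x = x + φ x • c := rfl

theorem mk_dism {r : ℕ} (N : Finset (V r)) (φ : V r →ₗ[ZMod 2] ZMod 2) (c : V r)
    (h1 : (mat N).IsCocircuit (supp N φ)) (h2 : φ c = 1) (h3 : ∀ a ∈ N, tr φ c a ∈ N) :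
    ∃ ρ, IsDism N ρ := by
  refine ⟨⟨fun e => ⟨tr φ c e, h3 e e.2⟩, lin_hom N N (tr φ c) _ fun _ => rfl⟩, ?_,
    ⟨id, lin_hom N N LinearMap.id _ fun _ => rfl⟩, rfl, ?_⟩
  · funext e
    apply Subtype.ext
    simp only [Function.comp, tr_apply, map_add, map_smul, h2, one_smul, vv, smul_zero, add_zero]
  · rw [(Col N N).adj_comm, adj_iff]
    refine ⟨fun k => ?_, φ, c, h1, fun e => rfl⟩
    obtain ⟨e, he⟩ := h1.nonempty
    have := congrArg (fun τ : {τ : N → N // IsHom N N τ} => (τ.1 e : V r)) k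
    simp only [id, tr_apply, show φ e = 1 from he, one_smul, left_eq_add] at this
    rw [this, map_zero] at h2
    exact zero_ne_one h2

theorem shift_dism {r : ℕ} (N : Finset (V r)) (hN : N.Nonempty) (c : V r) (hc : c ≠ 0)
    (h : ∀ a ∈ N, a + c ∈ N) : ∃ ρ, IsDism N ρ := by
  classical
  obtain ⟨i, hi⟩ := Function.ne_iff.1 hc
  have hex : ∃ n, ∃ φ : V r →ₗ[ZMod 2] ZMod 2, φ c = 1 ∧ (supp N φ).ncard = n :=
    ⟨_, LinearMap.proj i, (z2 _).resolve_left hi, rfl⟩
  obtain ⟨φ, h1, h2⟩ := Nat.find_spec hex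
  have hmin : ∀ ψ : V r →ₗ[ZMod 2] ZMod 2, ψ c = 1 → ¬ supp N ψ ⊂ supp N φ := fun ψ k1 k2 =>
    Nat.find_min hex (h2 ▸ Set.ncard_lt_ncard k2) ⟨ψ, k1, rfl⟩
  refine mk_dism N φ c ((cocirc_iff N _).2 ⟨φ, rfl, ?_, fun ψ k1 k2 => ?_⟩) h1 fun a ha => ?_
  · obtain ⟨a, ha⟩ := hN
    rcases z2 (φ a) with k | k
    · exact ⟨⟨a + c, h a ha⟩, by simp [supp, k, h1]⟩
    · exact ⟨⟨a, ha⟩, k⟩
  · rcases z2 (ψ c) with k | k
    · exfalso
      refine hmin (φ + ψ) (by simp [h1, k]) ⟨fun e he => ?_, fun k3 => ?_⟩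
      · rcases z2 (ψ e) with k4 | k4
        · simpa [supp, k4] using he
        · exact k2 k4
      · obtain ⟨e, he⟩ := k1
        have k5 : (φ + ψ) e = 1 := k3 (k2 he)
        rw [LinearMap.add_apply, show φ e = 1 from k2 he, show ψ e = 1 from he] at k5
        exact absurd k5 (by decide)
    · by_contra k3
      exact hmin ψ k ⟨k2, k3⟩
  · rcases z2 (φ a) with k | k
    · simpa [tr_apply, k] using ha
    · simpa [tr_apply, k] using h a ha

theorem rigid {s r : ℕ} (M : Finset (V s)) (N : Finset (V r)) (hN : N.Nonempty)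
    (hs : ¬ ∃ ρ, IsDism N ρ) (p : V s →ₗ[ZMod 2] V r) (hp : ∀ a ∈ N, ∃ x ∈ M, p x = a)
    (hp' : ∀ x ∈ M, p x ∈ N)
    (hφ : ∀ φ : V s →ₗ[ZMod 2] ZMod 2, (∃ φ1 : V r →ₗ[ZMod 2] ZMod 2, ∀ x ∈ M, φ x = φ1 (p x)) ∨
      ∀ a ∈ N, ∃ x ∈ M, p x = a ∧ φ x = 1)
    (τ τ' : {τ : M → N // IsHom M N τ}) (h0 : ∀ e, (τ.1 e : V r) = p e)
    (h : (Col M N).Reachable τ τ') :
    ∃ S : V r ≃ₗ[ZMod 2] V r, (∀ a, S a ∈ N → a ∈ N) ∧ ∀ e, (τ'.1 e : V r) = S (p e) := by
  rw [SimpleGraph.reachable_iff_reflTransGen] at h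
  induction h with
  | refl => exact ⟨LinearEquiv.refl _ _, fun _ k => k, h0⟩
  | @tail σ σ' _ hadj ih =>
    obtain ⟨S, hS, hσ⟩ := ih
    obtain ⟨hne, φ, c, h1, h2⟩ := (adj_iff M N σ σ').1 hadj
    have h3 : ∀ e : M, (σ'.1 e : V r) = S (p e + φ e • S.symm c) := by
      intro e; rw [h2, hσ]; simp
    have h4 : ∀ x ∈ M, p x + φ x • S.symm c ∈ N := fun x hx =>
      hS _ (h3 ⟨x, hx⟩ ▸ (σ'.1 ⟨x, hx⟩).2)
    have hc : S.symm c ≠ 0 := by
      intro k
      refine hne (Subtype.ext (funext fun e => Subtype.ext ?_))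
      rw [h3, hσ, k]; simp
    rcases hφ φ with ⟨φ1, h5⟩ | h5
    · have h6 : ∀ a ∈ N, tr φ1 (S.symm c) a ∈ N := by
        intro a ha
        obtain ⟨x, hx, rfl⟩ := hp a ha
        rw [tr_apply, ← h5 x hx]
        exact h4 x hx
      rcases z2 (φ1 (S.symm c)) with k | k
      · have hinv : Function.Involutive (tr φ1 (S.symm c)) := by
          intro x
          simp only [tr_apply, map_add, map_smul, k, zero_smul, add_zero]
          rw [add_assoc, vv, add_zero]
        refine ⟨(LinearEquiv.ofInvolutive _ hinv).trans S, fun a ha => ?_, fun e => ?_⟩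
        · exact hinv a ▸ h6 (tr φ1 (S.symm c) a) (hS _ ha)
        · rw [h3, h5 e e.2]; rfl
      · exfalso
        refine hs (mk_dism N φ1 _ ?_ k h6)
        obtain ⟨-, -, ⟨e, he⟩, h8⟩ := (cocirc_iff M _).1 h1
        refine (cocirc_iff N _).2 ⟨φ1, rfl, ⟨⟨p e, hp' e e.2⟩, ?_⟩, fun ψ k1 k2 a ha => ?_⟩
        · exact (h5 e e.2).symm.trans he
        · obtain ⟨b, hb⟩ := k1
          obtain ⟨y, hy, hyb⟩ := hp b b.2
          obtain ⟨x, hx, hxa⟩ := hp a a.2
          have := h8 (ψ.comp p) ⟨⟨y, hy⟩, by simpa [supp, hyb] using hb⟩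
            (fun z hz => (h5 z z.2).trans (k2 (a := ⟨p z, hp' z z.2⟩) hz))
            (a := ⟨x, hx⟩) ((h5 x hx).trans (hxa ▸ ha))
          simpa [supp, hxa] using this
    · exfalso
      refine hs (shift_dism N hN _ hc fun a ha => ?_)
      obtain ⟨x, hx, rfl, k⟩ := h5 a ha
      simpa [k] using h4 x hx

theorem stiff {r : ℕ} (N : Finset (V r)) (hN : N.Nonempty) (hT : Triv N)
    (hs : ¬ ∃ ρ, IsDism N ρ) : ∃ v, N = {v} := by
  classical
  obtain ⟨v, hv⟩ := hN
  refine ⟨v, Finset.eq_singleton_iff_unique_mem.2 ⟨hv, fun a ha => ?_⟩⟩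
  by_cases haff : ∃ θ : V r →ₗ[ZMod 2] ZMod 2, ∀ x ∈ N, θ x = 1
  · obtain ⟨θ, hθ⟩ := haff
    obtain ⟨S, -, h⟩ := rigid N N ⟨v, hv⟩ hs LinearMap.id (fun a k => ⟨a, k, rfl⟩) (fun _ k => k)
      (fun φ => Or.inl ⟨φ, fun _ _ => rfl⟩) ⟨id, lin_hom N N LinearMap.id _ fun _ => rfl⟩
      ⟨fun _ => ⟨v, hv⟩, lin_hom N N (θ.smulRight v) _ fun e => by simp [hθ e e.2]⟩
      (fun _ => rfl) (hT r N _ _)
    exact S.injective ((h ⟨a, ha⟩).symm.trans (h ⟨v, hv⟩))
  · let E : (V r × V r) ≃ₗ[ZMod 2] V (r + r) :=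
      LinearEquiv.ofFinrankEq _ _ (by simp)
    let M : Finset (V (r + r)) := (N ×ˢ N).image E
    have hM : ∀ x, x ∈ M ↔ (E.symm x).1 ∈ N ∧ (E.symm x).2 ∈ N := by
      intro x
      simp only [M, Finset.mem_image, Finset.mem_product]
      exact ⟨by rintro ⟨y, hy, rfl⟩; simpa using hy, fun k => ⟨_, k, by simp⟩⟩
    let p1 : V (r + r) →ₗ[ZMod 2] V r := (LinearMap.fst _ _ _).comp E.symm.toLinearMap
    let p2 : V (r + r) →ₗ[ZMod 2] V r := (LinearMap.snd _ _ _).comp E.symm.toLinearMap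
    have hE : ∀ x ∈ N, ∀ y ∈ N, E (x, y) ∈ M := fun x hx y hy => (hM _).2 (by simpa using ⟨hx, hy⟩)
    obtain ⟨S, -, h⟩ := rigid M N ⟨v, hv⟩ hs p1
      (fun a k => ⟨E (a, a), hE a k a k, by simp [p1]⟩) (fun x k => ((hM x).1 k).1)
      (fun φ => by
        have hsp : ∀ x y, φ (E (x, y)) = φ (E (x, 0)) + φ (E (0, y)) := by
          intro x y; rw [← map_add, ← map_add]; simp
        by_cases h0 : ∀ y ∈ N, φ (E (0, y)) = 0
        · refine Or.inl ⟨φ.comp (E.toLinearMap.comp (LinearMap.inl _ _ _)), fun x hx => ?_⟩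
          have := hsp (E.symm x).1 (E.symm x).2
          rw [h0 _ ((hM x).1 hx).2, add_zero] at this
          simpa [p1] using this
        · push Not at h0
          obtain ⟨y1, hy1, k1⟩ := h0
          have k1' := (z2 _).resolve_left k1
          have : ∃ y0 ∈ N, φ (E (0, y0)) = 0 := by
            by_contra k
            push Not at k
            exact haff ⟨φ.comp (E.toLinearMap.comp (LinearMap.inr _ _ _)),
              fun x hx => (z2 _).resolve_left (k x hx)⟩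
          obtain ⟨y0, hy0, k0⟩ := this
          refine Or.inr fun a ha => ?_
          rcases z2 (φ (E (a, 0))) with k | k
          · exact ⟨E (a, y1), hE a ha y1 hy1, by simp [p1], by rw [hsp, k, k1', zero_add]⟩
          · exact ⟨E (a, y0), hE a ha y0 hy0, by simp [p1], by rw [hsp, k, k0, add_zero]⟩)
      ⟨fun e => ⟨p1 e, ((hM e).1 e.2).1⟩, lin_hom M N p1 _ fun _ => rfl⟩
      ⟨fun e => ⟨p2 e, ((hM e).1 e.2).2⟩, lin_hom M N p2 _ fun _ => rfl⟩
      (fun _ => rfl) (hT _ M _ _)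
    have h1 := h ⟨E (v, a), hE v hv a ha⟩
    have h2 := h ⟨E (v, v), hE v hv v hv⟩
    simp only [p1, p2, LinearMap.comp_apply, LinearEquiv.coe_coe, LinearEquiv.symm_apply_apply,
      LinearMap.fst_apply, LinearMap.snd_apply] at h1 h2
    exact h1.trans h2.symm

theorem triv_image {r : ℕ} (N : Finset (V r)) (hT : Triv N) (ρ : {τ : N → N // IsHom N N τ})
    (h : IsDism N ρ) : Triv (Finset.univ.image fun e => (ρ.1 e : V r)) := by
  classical
  obtain ⟨h1, ι, hι, h2⟩ := h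
  obtain ⟨-, φ, c, -, h3⟩ := (adj_iff N N ι ρ).1 h2.symm
  have h4 : ∀ e, (ρ.1 e : V r) = tr φ c e := by
    intro e; rw [h3, hι]; rfl
  intro s M
  set N' : Finset (V r) := Finset.univ.image fun e => (ρ.1 e : V r) with hN'
  have hsub : ∀ a ∈ N', a ∈ N := by
    intro a ha
    obtain ⟨e, -, rfl⟩ := Finset.mem_image.1 ha
    exact (ρ.1 e).2
  let up : {τ : M → N' // IsHom M N' τ} → {τ : M → N // IsHom M N τ} := fun τ =>
    ⟨fun e => ⟨τ.1 e, hsub _ (τ.1 e).2⟩, τ.2⟩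
  let dn : {τ : M → N // IsHom M N τ} → {τ : M → N' // IsHom M N' τ} := fun τ =>
    ⟨fun e => ⟨ρ.1 (τ.1 e), Finset.mem_image_of_mem _ (Finset.mem_univ _)⟩, fun Z hZ => by
      simp only [h4]
      rw [← map_sum, τ.2 Z hZ, map_zero]⟩
  have hdu : ∀ τ, dn (up τ) = τ := by
    intro τ
    refine Subtype.ext (funext fun e => Subtype.ext ?_)
    obtain ⟨x, -, hx⟩ := Finset.mem_image.1 (τ.1 e).2
    have : (⟨τ.1 e, hsub _ (τ.1 e).2⟩ : N) = ρ.1 x := Subtype.ext hx.symm
    change (ρ.1 ⟨τ.1 e, hsub _ (τ.1 e).2⟩ : V r) = τ.1 e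
    rw [this, ← hx]
    exact congrArg Subtype.val (congrFun h1 x)
  have key : ∀ σ σ', (Col M N).Reachable σ σ' → (Col M N').Reachable (dn σ) (dn σ') := by
    intro σ σ' h
    rw [SimpleGraph.reachable_iff_reflTransGen] at h
    induction h with
    | refl => exact SimpleGraph.Reachable.refl _
    | @tail a b _ hadj ih =>
      refine ih.trans ?_
      by_cases k : dn a = dn b
      · rw [k]
      · obtain ⟨-, ψ, d, k1, k2⟩ := (adj_iff M N a b).1 hadj
        refine SimpleGraph.Adj.reachable ((adj_iff M N' _ _).2 ⟨k, ψ, tr φ c d, k1, fun e => ?_⟩)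
        change (ρ.1 (b.1 e) : V r) = ρ.1 (a.1 e) + _
        rw [h4, h4, k2, map_add, map_smul]
  intro τ τ'
  rw [← hdu τ, ← hdu τ']
  exact key _ _ (hT s M _ _)

/-- A nonempty simple binary matroid with trivial recolouring problem dismantles to a
one-element matroid, that is, to the loop or to the edge. -/
theorem result (r : ℕ) (N : Finset (V r)) (hN : N.Nonempty) (hT : Triv N) :
    ∃ v : V r, Dis N {v} := by
  classical
  induction hn : N.card using Nat.strong_induction_on generalizing N with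
  | _ n ih =>
    by_cases hs : ∃ ρ, IsDism N ρ
    · obtain ⟨ρ, hρ⟩ := hs
      have hlt : (Finset.univ.image fun e => (ρ.1 e : V r)).card < n := by
        rw [← hn]
        refine Finset.card_lt_card ⟨fun a ha => ?_, fun k => ?_⟩
        · obtain ⟨e, -, rfl⟩ := Finset.mem_image.1 ha
          exact (ρ.1 e).2
        · obtain ⟨h1, ι, hι, h2⟩ := hρ
          refine h2.ne (Subtype.ext (funext fun e => ?_))
          obtain ⟨x, -, hx⟩ := Finset.mem_image.1 (k e.2)
          rw [hι, ← Subtype.ext hx]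
          exact congrFun h1 x
      obtain ⟨a, ha⟩ := hN
      obtain ⟨v, hv⟩ := ih _ hlt _ ⟨_, Finset.mem_image_of_mem _ (Finset.mem_univ ⟨a, ha⟩)⟩
        (triv_image N hT ρ hρ) rfl
      exact ⟨v, Dis.step N _ ρ hρ hv⟩
    · obtain ⟨v, rfl⟩ := stiff N hN hT hs
      exact ⟨v, Dis.refl _⟩

end Pool.Agent.Results.MP_ea4033_co.Dismantle
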